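import Pool.Agent.Q25.PLP.Stm

/-!
# Points, lines and planes: choices proportional to a positive function
-/

set_option autoImplicit false

open Finset Pool.Agent.Q25.PLP

namespace Pool.Agent.Q94.PLPH32

section
variable {ι P : Type} [Fintype ι] [DecidableEq ι] [Fintype P] [DecidableEq P]

/-- the number of ordered pairs of different indices with the same value -/
noncomputable def cl (X : ι → P) : ℝ :=
  ∑ x, (((univ.filter (fun i => X i = x)).card : ℝ) *
    (((univ.filter (fun i => X i = x)).card : ℝ) - 1))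

lemma nn_mul (n : ℕ) : 0 ≤ (n : ℝ) * ((n : ℝ) - 1) := by
  rcases Nat.eq_zero_or_pos n with h | h
  · simp [h]
  · have : (1 : ℝ) ≤ n := by exact_mod_cast h
    exact mul_nonneg (by linarith) (by linarith)

omit [DecidableEq ι] in
lemma cl_nn (X : ι → P) : 0 ≤ cl X := sum_nonneg fun _ _ => nn_mul _

lemma cl_two (X : ι → P) (hX : ¬ Function.Injective X) : 2 ≤ cl X := by
  obtain ⟨i, j, hij, hne⟩ : ∃ i j, X i = X j ∧ i ≠ j := by
    by_contra hcon
    push Not at hcon
    exact hX fun i j h => hcon i j h
  have h2 : 2 ≤ (univ.filter (fun k => X k = X i)).card := by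
    have : ({i, j} : Finset ι) ⊆ univ.filter (fun k => X k = X i) := by
      intro k hk
      rw [mem_insert, mem_singleton] at hk
      rw [mem_filter]
      rcases hk with rfl | rfl
      · exact ⟨mem_univ _, rfl⟩
      · exact ⟨mem_univ _, hij.symm⟩
    calc 2 = ({i, j} : Finset ι).card := (card_pair hne).symm
      _ ≤ _ := card_le_card this
  have h3 : (2 : ℝ) ≤ ((univ.filter (fun k => X k = X i)).card : ℝ) := by exact_mod_cast h2
  have h4 : (2 : ℝ) ≤ ((univ.filter (fun k => X k = X i)).card : ℝ) *
      (((univ.filter (fun k => X k = X i)).card : ℝ) - 1) := by nlinarith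
  refine le_trans h4 ?_
  exact single_le_sum (f := fun x => ((univ.filter (fun k => X k = x)).card : ℝ) *
      (((univ.filter (fun k => X k = x)).card : ℝ) - 1)) (fun _ _ => nn_mul _) (mem_univ (X i))

end

theorem t_H32 (h1 : S_EXP) (h2 : S_SW) (h3 : S_DBE) : S_H32 := by
  intro P _ _ V L hLS h hpos
  let T : L → Finset P := fun l => l.1
  let c : L → P → ℝ := fun l => hc h l.1
  have hcard : ∀ i : L, 2 ≤ (T i).card := fun i => hLS.two_le i.1 i.2
  have hne : ∀ i : L, (T i).Nonempty := fun i => card_pos.1 (by have := hcard i; omega)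
  have hs : ∀ i : L, 0 < ∑ y ∈ T i, h y := fun i => sum_pos (fun y _ => hpos y) (hne i)
  have hin : ∀ (i : L) (x : P), x ∈ T i → c i x = h x / ∑ y ∈ T i, h y := by
    intro i x hx
    exact if_pos hx
  have hc0 : ∀ (i : L) (x : P), x ∉ T i → c i x = 0 := by
    intro i x hx
    exact if_neg hx
  have hc1 : ∀ i : L, ∑ x ∈ T i, c i x = 1 := by
    intro i
    rw [sum_congr rfl (hin i), ← sum_div, div_self (hs i).ne']
  have hcn : ∀ (i : L) (x : P), 0 ≤ c i x := by
    intro i x
    by_cases hx : x ∈ T i
    · rw [hin i x hx]; exact div_nonneg (hpos x).le (hs i).le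
    · rw [hc0 i x hx]
  have E := h1 L P T c hc1 hc0
  have hPP : PP V L (hc h) = ∑ x, ((∑ i, c i x) ^ 2 - ∑ i, (c i x) ^ 2) := by
    have e1 : ∀ x, ((∑ i, c i x) ^ 2 - ∑ i, (c i x) ^ 2) =
        ((∑ l ∈ L, hc h l x) ^ 2 - ∑ l ∈ L, (hc h l x) ^ 2) := by
      intro x
      rw [← sum_coe_sort L (fun l => hc h l x), ← sum_coe_sort L (fun l => (hc h l x) ^ 2)]
    rw [sum_congr rfl (fun x _ => e1 x)]
    unfold PP
    apply sum_subset (subset_univ V)
    intro x _ hx
    have e2 : ∀ l ∈ L, hc h l x = 0 := by
      intro l hl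
      exact if_neg (fun hxl => hx (hLS.sub l hl hxl))
    rw [sum_eq_zero e2, sum_eq_zero (fun l hl => by rw [e2 l hl]; simp)]
    simp
  rw [hPP, E]
  -- the weights
  have hw : ∀ X ∈ Fintype.piFinset T, ∏ i, c i (X i) =
      (∏ i, h (X i)) / ∏ i, ∑ y ∈ T i, h y := by
    intro X hX
    rw [Fintype.mem_piFinset] at hX
    rw [← prod_div_distrib]
    exact prod_congr rfl fun i _ => hin i (X i) (hX i)
  have hD : 0 < ∏ i, ∑ y ∈ T i, h y := prod_pos fun i _ => hs i
  have hsumD : ∑ X ∈ Fintype.piFinset T, ∏ i, h (X i) = ∏ i, ∑ y ∈ T i, h y :=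
    (Finset.prod_univ_sum T (fun _ y => h y)).symm
  have hsum1 : ∑ X ∈ Fintype.piFinset T, ∏ i, c i (X i) = 1 := by
    rw [← Finset.prod_univ_sum T (fun i y => c i y)]
    exact prod_eq_one fun i _ => hc1 i
  have hinj : 4 * ∑ X ∈ (Fintype.piFinset T).filter (fun X => Function.Injective X),
      ∏ i, c i (X i) ≤ 1 := by
    rcases lt_or_eq_of_le (h3 P V L hLS) with hlt | heq
    · have : (Fintype.piFinset T).filter (fun X => Function.Injective X) = ∅ := by
        apply filter_false_of_mem
        intro X hX hXi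
        rw [Fintype.mem_piFinset] at hX
        have h5 : Fintype.card L ≤ V.card := by
          have := card_le_card_of_injOn (s := (univ : Finset L)) (t := V) X
            (fun i _ => hLS.sub i.1 i.2 (hX i)) (hXi.injOn)
          simpa using this
        rw [Fintype.card_coe] at h5
        omega
      rw [this]; simp
    · obtain ⟨l0, hl0⟩ := hLS.ne
      have : Nonempty L := ⟨⟨l0, hl0⟩⟩
      have := h2 L P V T h hpos (by rw [Fintype.card_coe]; exact heq.symm)
        (fun i => hLS.sub i.1 i.2) hcard (by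
          intro i j hij
          by_contra hcon
          push Not at hcon
          obtain ⟨x, hx, y, hy, hxy⟩ := one_lt_card.1 hcon
          rw [mem_inter] at hx hy
          exact hij (Subtype.ext (hLS.uniq i.1 i.2 j.1 j.2 x y hxy hx.1 hy.1 hx.2 hy.2)))
      rw [hsumD] at this
      have e4 : ∑ X ∈ (Fintype.piFinset T).filter (fun X => Function.Injective X),
          ∏ i, c i (X i) = (∑ X ∈ (Fintype.piFinset T).filter (fun X => Function.Injective X),
          ∏ i, h (X i)) / ∏ i, ∑ y ∈ T i, h y := by
        rw [sum_div]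
        exact sum_congr rfl fun X hX => hw X (mem_filter.1 hX).1
      rw [e4, ← mul_div_assoc, div_le_one hD]
      exact this
  -- the collisions
  have hlow : ∑ X ∈ (Fintype.piFinset T).filter (fun X => ¬ Function.Injective X),
      (∏ i, c i (X i)) * 2 ≤ ∑ X ∈ Fintype.piFinset T, (∏ i, c i (X i)) *
        ∑ x, (((univ.filter (fun i => X i = x)).card : ℝ) *
          (((univ.filter (fun i => X i = x)).card : ℝ) - 1)) := by
    calc ∑ X ∈ (Fintype.piFinset T).filter (fun X => ¬ Function.Injective X),
          (∏ i, c i (X i)) * 2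
        ≤ ∑ X ∈ (Fintype.piFinset T).filter (fun X => ¬ Function.Injective X),
          (∏ i, c i (X i)) * cl X := by
          apply sum_le_sum
          intro X hX
          exact mul_le_mul_of_nonneg_left (cl_two X (mem_filter.1 hX).2)
            (prod_nonneg fun i _ => hcn i (X i))
      _ ≤ ∑ X ∈ Fintype.piFinset T, (∏ i, c i (X i)) * cl X := by
          apply sum_le_sum_of_subset_of_nonneg (filter_subset _ _)
          intro X _ _
          exact mul_nonneg (prod_nonneg fun i _ => hcn i (X i)) (cl_nn X)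
      _ = _ := rfl
  refine le_trans ?_ hlow
  rw [← sum_mul]
  have hsplit := sum_filter_add_sum_filter_not (Fintype.piFinset T)
    (fun X => Function.Injective X) (fun X => ∏ i, c i (X i))
  rw [hsum1] at hsplit
  linarith

end Pool.Agent.Q94.PLPH32
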