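import Pool.Agent.Q25.PLP.Stm

/-!
# Points, lines and planes: expected number of collisions of independent choices
-/

set_option autoImplicit false

open Finset Pool.Agent.Q25.PLP

namespace Pool.Agent.Q94.PLPEXP

section
variable {ι P : Type} [Fintype ι] [DecidableEq ι] [DecidableEq P]

/-- a square minus the diagonal is the sum over the ordered pairs of different indices -/
lemma sq_sub (f : ι → ℝ) :
    (∑ i, f i) ^ 2 - ∑ i, (f i) ^ 2 = ∑ i, ∑ j, if i = j then 0 else f i * f j := by
  have h1 : (∑ i, f i) ^ 2 = ∑ i, ∑ j, f i * f j := by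
    rw [sq, sum_mul_sum]
  have h2 : ∑ i, (f i) ^ 2 = ∑ i, ∑ j, if i = j then f i * f j else 0 := by
    apply sum_congr rfl
    intro i _
    rw [sum_ite_eq, if_pos (mem_univ i), sq]
  rw [h1, h2, ← sum_sub_distrib]
  apply sum_congr rfl
  intro i _
  rw [← sum_sub_distrib]
  apply sum_congr rfl
  intro j _
  split_ifs <;> simp

lemma pair (T : ι → Finset P) (c : ι → P → ℝ) (h1 : ∀ i, ∑ x ∈ T i, c i x = 1)
    (h0 : ∀ i x, x ∉ T i → c i x = 0) (x : P) (i j : ι) (hij : i ≠ j) :
    ∑ X ∈ Fintype.piFinset T, (∏ k, c k (X k)) *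
      ((if X i = x then (1 : ℝ) else 0) * (if X j = x then 1 else 0)) = c i x * c j x := by
  have e1 : ∀ X ∈ Fintype.piFinset T, (∏ k, c k (X k)) *
      ((if X i = x then (1 : ℝ) else 0) * (if X j = x then 1 else 0)) =
      ∏ k, (c k (X k) * (if k = i ∨ k = j then (if X k = x then 1 else 0) else 1)) := by
    intro X _
    rw [Finset.prod_mul_distrib]
    congr 1
    rw [← Finset.mul_prod_erase univ _ (mem_univ i),
      ← Finset.mul_prod_erase (univ.erase i) _ (mem_erase.2 ⟨hij.symm, mem_univ j⟩)]
    have h3 : ∏ k ∈ (univ.erase i).erase j,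
        (if k = i ∨ k = j then (if X k = x then (1 : ℝ) else 0) else 1) = 1 := by
      apply prod_eq_one
      intro k hk
      rw [mem_erase, mem_erase] at hk
      rw [if_neg]
      rintro (h | h)
      · exact hk.2.1 h
      · exact hk.1 h
    rw [h3, if_pos (Or.inl rfl), if_pos (Or.inr rfl), mul_one]
  rw [sum_congr rfl e1]
  have e2 := (Finset.prod_univ_sum T (fun k y => c k y *
    (if k = i ∨ k = j then (if y = x then (1 : ℝ) else 0) else 1))).symm
  rw [e2]
  have e3 : ∀ k, ∑ y ∈ T k, c k y * (if y = x then (1 : ℝ) else 0) = c k x := by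
    intro k
    by_cases hx : x ∈ T k
    · rw [sum_eq_single x]
      · simp
      · intro y _ hy; simp [hy]
      · intro h; exact absurd hx h
    · rw [h0 k x hx]
      apply sum_eq_zero
      intro y hy
      have : y ≠ x := fun h => hx (h ▸ hy)
      simp [this]
  rw [← Finset.mul_prod_erase univ _ (mem_univ i),
      ← Finset.mul_prod_erase (univ.erase i) _ (mem_erase.2 ⟨hij.symm, mem_univ j⟩)]
  have h3 : ∏ k ∈ (univ.erase i).erase j, ∑ y ∈ T k, c k y *
      (if k = i ∨ k = j then (if y = x then (1 : ℝ) else 0) else 1) = 1 := by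
    apply prod_eq_one
    intro k hk
    rw [mem_erase, mem_erase] at hk
    have : ¬ (k = i ∨ k = j) := by
      rintro (h | h)
      · exact hk.2.1 h
      · exact hk.1 h
    simp only [this, if_false, mul_one]
    exact h1 k
  rw [h3, mul_one]
  simp only [true_or, or_true, if_true]
  rw [e3, e3]

lemma coll_pairs (X : ι → P) (x : P) :
    ((univ.filter (fun i => X i = x)).card : ℝ) * (((univ.filter (fun i => X i = x)).card : ℝ) - 1)
      = ∑ i, ∑ j, if i = j then 0 else
        (if X i = x then (1 : ℝ) else 0) * (if X j = x then 1 else 0) := by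
  rw [← sq_sub (fun i => if X i = x then (1 : ℝ) else 0)]
  have h1 : ∑ i, (if X i = x then (1 : ℝ) else 0) = ((univ.filter (fun i => X i = x)).card : ℝ) := by
    rw [← sum_filter]; simp
  have h2 : ∑ i, (if X i = x then (1 : ℝ) else 0) ^ 2 =
      ((univ.filter (fun i => X i = x)).card : ℝ) := by
    rw [← h1]
    apply sum_congr rfl
    intro i _
    split_ifs <;> simp
  rw [h1, h2]; ring

end

theorem t_EXP : S_EXP := by
  intro ι P _ _ _ _ T c h1 h0
  have e1 : ∀ X ∈ Fintype.piFinset T, (∏ i, c i (X i)) *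
      ∑ x, (((univ.filter (fun i => X i = x)).card : ℝ) *
        (((univ.filter (fun i => X i = x)).card : ℝ) - 1)) =
      ∑ x, ∑ i, ∑ j, if i = j then 0 else (∏ k, c k (X k)) *
        ((if X i = x then (1 : ℝ) else 0) * (if X j = x then 1 else 0)) := by
    intro X _
    rw [mul_sum]
    apply sum_congr rfl
    intro x _
    rw [coll_pairs, mul_sum]
    apply sum_congr rfl
    intro i _
    rw [mul_sum]
    apply sum_congr rfl
    intro j _
    split_ifs <;> simp
  rw [sum_congr rfl e1, sum_comm]
  apply sum_congr rfl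
  intro x _
  rw [sq_sub (fun i => c i x)]
  symm
  rw [sum_comm]
  apply sum_congr rfl
  intro i _
  rw [sum_comm]
  apply sum_congr rfl
  intro j _
  by_cases hij : i = j
  · simp [hij]
  · simp only [hij, if_false]
    exact pair T c h1 h0 x i j hij

end Pool.Agent.Q94.PLPEXP
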